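import Pool.Agent.Q78.Parry.Law

open Filter Topology MeasureTheory
open scoped ENNReal

namespace Q78.Parry

theorem ee_mono' {α : Type} (p : PMF α) {g h : α → ℝ≥0∞} (H : ∀ a, p a ≠ 0 → g a ≤ h a) :
    ee p g ≤ ee p h := by
  unfold ee
  refine ENNReal.tsum_le_tsum (fun a => ?_)
  by_cases ha : p a = 0
  · simp [ha]
  · exact mul_le_mul_right (H a ha) _

/-- Second moment bound for the number of occurrences. -/
theorem second_moment (v : List Bool) : ∃ C : ℝ≥0∞, C ≠ ∞ ∧ ∀ n α,
    ee (iter theta n [α]) (fun w => ENNReal.ofReal (dev v w ^ 2)) ≤ C * 3 ^ n := by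
  have hs1 := ss_pos
  have hs2 := ss_lt_one
  set B : ℝ := (v.length : ℝ) + 4 with hB
  set G : List Bool → ℝ≥0∞ := fun w => ENNReal.ofReal ((Mart v w) ^ 2) with hG
  set K : ℝ≥0∞ := ENNReal.ofReal (B ^ 2) with hK
  have hstep : ∀ w, ee coin (fun c => if c then G (w ++ [false, true]) else G (w ++ [false])) ≤
      G w + K := by
    intro w
    rw [ee_coin]
    simp only [if_true, Bool.false_eq_true, if_false, hG, hK]
    rw [← ENNReal.ofReal_mul hs1.le, ← ENNReal.ofReal_mul (by linarith),
      ← ENNReal.ofReal_add (by positivity) (mul_nonneg (by linarith) (by positivity)),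
      ← ENNReal.ofReal_add (by positivity) (by positivity)]
    apply ENNReal.ofReal_le_ofReal
    have := Mart_sq_step v w
    linarith
  -- comparison
  have hcmp : ∀ w, dev v w ^ 2 ≤ 2 * Mart v w ^ 2 + 2 * B ^ 2 := by
    intro w
    have h1 := dev_Mart v w
    have h2 : (dev v w - Mart v w) ^ 2 ≤ B ^ 2 := by
      apply sq_le_sq'
      · linarith [(abs_le.1 h1).1]
      · linarith [(abs_le.1 h1).2]
    nlinarith [sq_nonneg (dev v w - 2 * Mart v w)]
  have hcmp2 : ∀ u, dev v (u ++ [false]) ^ 2 ≤ 4 * Mart v u ^ 2 + 6 * B ^ 2 := by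
    intro u
    have h1 := hcmp (u ++ [false])
    have h2 := Mart_append_bound v u [false] (by simp)
    have h3 : (Mart v (u ++ [false]) - Mart v u) ^ 2 ≤ B ^ 2 :=
      sq_le_sq' (abs_le.1 h2).1 (abs_le.1 h2).2
    nlinarith [sq_nonneg (Mart v (u ++ [false]) - 2 * Mart v u)]
  have h3n : ∀ n : ℕ, (1 : ℝ≥0∞) ≤ 3 ^ n := fun n => one_le_pow₀ (by norm_num)
  refine ⟨4 * (G [] + K) + 4 * (G [true] + K) + 6 * K, ?_, fun n α => ?_⟩
  · simp [hG, hK, ENNReal.mul_eq_top]
  · obtain ⟨h1, h2⟩ := UV_bound G K hstep n
    have key : ∀ w₀, G w₀ + K * 3 ^ n ≤ (G w₀ + K) * 3 ^ n := by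
      intro w₀
      rw [add_mul]
      gcongr
      exact le_mul_of_one_le_right bot_le (h3n n)
    cases α with
    | false =>
      rw [(iter_theta n).1, ee_map]
      calc ee (UV n).1 (fun u => ENNReal.ofReal (dev v (u ++ [false]) ^ 2))
          ≤ ee (UV n).1 (fun u => 4 * G ([] ++ u) + 6 * K) := by
            apply ee_mono
            intro u
            have e1 : (4 : ℝ≥0∞) * G ([] ++ u) + 6 * K =
                ENNReal.ofReal (4 * Mart v u ^ 2 + 6 * B ^ 2) := by
              rw [ENNReal.ofReal_add (by positivity) (by positivity),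
                ENNReal.ofReal_mul (by norm_num), ENNReal.ofReal_mul (by norm_num)]
              simp [hG, hK]
            rw [e1]
            exact ENNReal.ofReal_le_ofReal (hcmp2 u)
        _ = 4 * ee (UV n).1 (fun u => G ([] ++ u)) + 6 * K := by
            rw [ee_add, ee_const, ee_const_mul]
        _ ≤ 4 * ((G [] + K) * 3 ^ n) + 6 * K * 3 ^ n := by
            refine add_le_add (mul_le_mul_right ((h1 []).trans (key _)) _) ?_
            exact le_mul_of_one_le_right bot_le (h3n n)
        _ ≤ (4 * (G [] + K) + 4 * (G [true] + K) + 6 * K) * 3 ^ n := by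
            have e2 : (4 * (G [] + K) + 4 * (G [true] + K) + 6 * K) * 3 ^ n =
                4 * ((G [] + K) * 3 ^ n) + 6 * K * 3 ^ n + 4 * (G [true] + K) * 3 ^ n := by ring
            rw [e2]
            exact le_self_add
    | true =>
      rw [(iter_theta n).2, ee_map]
      calc ee (UV n).2 (fun u => ENNReal.ofReal (dev v ([true] ++ u) ^ 2))
          ≤ ee (UV n).2 (fun u => 4 * G ([true] ++ u) + 6 * K) := by
            apply ee_mono
            intro u
            have e1 : (4 : ℝ≥0∞) * G ([true] ++ u) + 6 * K =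
                ENNReal.ofReal (4 * Mart v ([true] ++ u) ^ 2 + 6 * B ^ 2) := by
              rw [ENNReal.ofReal_add (by positivity) (by positivity),
                ENNReal.ofReal_mul (by norm_num), ENNReal.ofReal_mul (by norm_num)]
              simp [hG, hK]
            rw [e1]
            apply ENNReal.ofReal_le_ofReal
            have := hcmp ([true] ++ u)
            nlinarith [sq_nonneg (Mart v ([true] ++ u)), sq_nonneg B]
        _ = 4 * ee (UV n).2 (fun u => G ([true] ++ u)) + 6 * K := by
            rw [ee_add, ee_const, ee_const_mul]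
        _ ≤ 4 * ((G [true] + K) * 3 ^ n) + 6 * K * 3 ^ n := by
            refine add_le_add (mul_le_mul_right ((h2 [true]).trans (key _)) _) ?_
            exact le_mul_of_one_le_right bot_le (h3n n)
        _ ≤ (4 * (G [] + K) + 4 * (G [true] + K) + 6 * K) * 3 ^ n := by
            have e2 : (4 * (G [] + K) + 4 * (G [true] + K) + 6 * K) * 3 ^ n =
                4 * ((G [true] + K) * 3 ^ n) + 6 * K * 3 ^ n + 4 * (G [] + K) * 3 ^ n := by ring
            rw [e2]
            exact le_self_add

theorem image_length (w u : List Bool) (h : u ∈ (theta.image w).support) :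
    2 * w.length ≤ u.length := by
  induction w generalizing u with
  | nil => simp
  | cons x w ih =>
    simp only [RandSubst.image, PMF.support_bind, Set.mem_iUnion] at h
    obtain ⟨y, hy, h⟩ := h
    rw [PMF.support_map] at h
    obtain ⟨z, hz, rfl⟩ := h
    have h1 := ih z hz
    have h2 : 2 ≤ y.length := by
      have hy' : y ∈ (coin.map (img x)).support := hy
      rw [PMF.support_map] at hy'
      obtain ⟨c, -, rfl⟩ := hy'
      cases x <;> cases c <;> simp [img]
    simp only [List.length_cons, List.length_append]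
    omega

theorem iter_length (n : ℕ) (α : Bool) (u : List Bool) (h : u ∈ (iter theta n [α]).support) :
    2 ^ n ≤ u.length := by
  induction n generalizing u with
  | zero =>
    simp only [iter, PMF.support_pure, Set.mem_singleton_iff] at h
    subst h; simp
  | succ n ih =>
    simp only [iter, PMF.support_bind, Set.mem_iUnion] at h
    obtain ⟨y, hy, h⟩ := h
    have h1 := ih y hy
    have h2 := image_length y u h
    rw [pow_succ]
    omega

/-! ### Almost sure convergence -/

section run

variable {θ : RandSubst} {α : Bool} {Ω : Type} [MeasurableSpace Ω] {P : Measure Ω}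
  {X : ℕ → Ω → List Bool}

theorem IsRun.measurableSet (h : IsRun θ α P X) (n : ℕ) (S : Set (List Bool)) :
    MeasurableSet {ω | X n ω ∈ S} := by
  have : {ω | X n ω ∈ S} = ⋃ w ∈ S, {ω | X n ω = w} := by
    ext ω; simp
  rw [this]
  exact MeasurableSet.biUnion (Set.to_countable S) (fun w _ => h.meas n w)

theorem IsRun.marginal (h : IsRun θ α P X) (n : ℕ) (w : List Bool) :
    P {ω | X n ω = w} = iter θ n [α] w := by
  have hprob := h.prob
  -- histories
  have hist : ∀ (n : ℕ) (w' : List Bool), P {ω | X (n + 1) ω = w'} =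
      ∑' u : List Bool, P {ω | X n ω = u} * θ.image u w' := by
    intro n w'
    -- events indexed by histories
    let E : (Fin (n + 1) → List Bool) → Set Ω := fun g => {ω | ∀ i : Fin (n + 1), X i ω = g i}
    have hE : ∀ g, MeasurableSet (E g) := by
      intro g
      have : E g = ⋂ i : Fin (n + 1), {ω | X i ω = g i} := by ext ω; simp [E]
      rw [this]
      exact MeasurableSet.iInter (fun i => h.meas _ _)
    have hEd : Pairwise (Function.onFun Disjoint E) := by
      intro g g' hgg
      rw [Function.onFun, Set.disjoint_left]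
      intro ω h1 h2
      apply hgg
      funext i
      exact (h1 i).symm.trans (h2 i)
    let ext : (Fin (n + 1) → List Bool) → ℕ → List Bool := fun g i =>
      if hi : i < n + 1 then g ⟨i, hi⟩ else w'
    have hext1 : ∀ g ω, (∀ i ≤ n, X i ω = ext g i) ↔ ω ∈ E g := by
      intro g ω
      constructor
      · intro hh i
        have h8 := hh i (by omega)
        have h9 : ext g i = g i := dif_pos i.2
        rw [h9] at h8
        exact h8
      · intro hh i hi
        have h5 : i < n + 1 := by omega
        have h8 := hh ⟨i, h5⟩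
        have h9 : ext g i = g ⟨i, h5⟩ := dif_pos h5
        rw [h9]
        exact h8
    have hstep : ∀ g, P (E g ∩ {ω | X (n + 1) ω = w'}) = P (E g) *
        θ.image (g (Fin.last n)) w' := by
      intro g
      have h1 := h.step n (ext g)
      have e1 : {ω | ∀ i ≤ n, X i ω = ext g i} = E g := Set.ext fun ω => hext1 g ω
      have e2 : {ω | ∀ i ≤ n + 1, X i ω = ext g i} = E g ∩ {ω | X (n + 1) ω = w'} := by
        apply Set.ext
        intro ω
        rw [← e1]
        have h6 : ext g (n + 1) = w' := by simp [ext]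
        constructor
        · intro hh
          exact ⟨fun i hi => hh i (by omega), (hh (n + 1) le_rfl).trans h6⟩
        · rintro ⟨hh1, hh2⟩ i hi
          rcases Nat.lt_or_ge i (n + 1) with h7 | h7
          · exact hh1 i (by omega)
          · have : i = n + 1 := by omega
            subst this
            exact (show X (n + 1) ω = w' from hh2).trans h6.symm
      rw [e1, e2] at h1
      rw [h1]
      have h7 : ext g n = g (Fin.last n) := by
        simp only [ext, Nat.lt_succ_self, dif_pos]
        rfl
      have h6 : ext g (n + 1) = w' := by simp [ext]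
      rw [h7, h6]
    have hcov : ∀ S : Set Ω, S = ⋃ g, (E g ∩ S) := by
      intro S
      ext ω
      simp only [Set.mem_iUnion, Set.mem_inter_iff]
      constructor
      · intro hS
        exact ⟨fun i => X i ω, fun i => rfl, hS⟩
      · rintro ⟨g, -, hS⟩
        exact hS
    have hsum : ∀ S : Set Ω, MeasurableSet S → P S = ∑' g, P (E g ∩ S) := by
      intro S hS
      conv_lhs => rw [hcov S]
      rw [measure_iUnion]
      · intro g g' hgg
        exact (hEd hgg).mono Set.inter_subset_left Set.inter_subset_left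
      · intro g
        exact (hE g).inter hS
    rw [hsum _ (h.meas _ _)]
    simp_rw [hstep]
    have hu : ∀ u, P {ω | X n ω = u} * θ.image u w' =
        ∑' g, P (E g ∩ {ω | X n ω = u}) * θ.image u w' := by
      intro u
      rw [hsum _ (h.meas _ _), ENNReal.tsum_mul_right]
    simp_rw [hu]
    rw [ENNReal.tsum_comm]
    refine tsum_congr (fun g => ?_)
    rw [tsum_eq_single (g (Fin.last n))]
    · congr 2
      refine (Set.inter_eq_left.2 ?_).symm
      intro ω hω
      exact hω (Fin.last n)
    · intro u hu
      have : E g ∩ {ω | X n ω = u} = ∅ := by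
        ext ω
        simp only [Set.mem_inter_iff, Set.mem_empty_iff_false, iff_false, not_and]
        intro h1 h2
        apply hu
        have h3 := h1 (Fin.last n)
        exact (show X n ω = u from h2).symm.trans h3
      rw [this, measure_empty, zero_mul]
  induction n generalizing w with
  | zero =>
    simp only [iter, PMF.pure_apply]
    by_cases hw : w = [α]
    · subst hw
      simp [h.init]
    · rw [if_neg hw]
      have h1 : {ω | X 0 ω = w} ⊆ {ω | X 0 ω = [α]}ᶜ := by
        intro ω hω hω2
        exact hw ((show X 0 ω = w from hω).symm.trans hω2)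
      have h2 : P {ω | X 0 ω = [α]}ᶜ = 0 := (prob_compl_eq_zero_iff (h.meas 0 _)).2 h.init
      exact measure_mono_null h1 h2
  | succ n ih =>
    rw [hist n w]
    simp only [iter, PMF.bind_apply]
    exact tsum_congr (fun u => by rw [ih u])

theorem IsRun.prob_mem (h : IsRun θ α P X) (n : ℕ) (S : Set (List Bool)) :
    P {ω | X n ω ∈ S} = ee (iter θ n [α]) (S.indicator 1) := by
  have e1 : {ω | X n ω ∈ S} = ⋃ w, ({ω | X n ω = w} ∩ {_ω | w ∈ S}) := by
    ext ω
    simp only [Set.mem_iUnion, Set.mem_inter_iff, Set.mem_ofPred_eq]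
    constructor
    · intro hh; exact ⟨X n ω, rfl, hh⟩
    · rintro ⟨w, h1, h2⟩
      rw [h1]; exact h2
  rw [e1, measure_iUnion]
  · unfold ee
    refine tsum_congr (fun w => ?_)
    by_cases hw : w ∈ S
    · simp only [hw, Set.ofPred_true, Set.inter_univ, Set.indicator_of_mem, Pi.one_apply, mul_one]
      exact h.marginal n w
    · simp [hw]
  · intro w w' hww
    rw [Function.onFun, Set.disjoint_left]
    rintro ω ⟨h1, -⟩ ⟨h2, -⟩
    exact hww ((show X n ω = w from h1).symm.trans h2)
  · intro w
    exact (h.meas n w).inter (MeasurableSet.const _)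

end run

theorem ae_freq {α : Bool} {Ω : Type} [MeasurableSpace Ω] {P : Measure Ω}
    {X : ℕ → Ω → List Bool} (h : IsRun theta α P X) (v : List Bool) :
    ∀ᵐ ω ∂P, Tendsto (fun n => (occ v (X n ω) : ℝ) / ((X n ω).length : ℝ)) atTop
      (𝓝 (weight v)) := by
  obtain ⟨C, hC, hmom⟩ := second_moment v
  have key : ∀ k : ℕ, ∀ᵐ ω ∂P, ∀ᶠ n in atTop,
      ω ∉ {ω | X n ω ∈ {w | (1 / ((k : ℝ) + 1)) * w.length ≤ |dev v w|}} := by
    intro k
    apply ae_eventually_notMem
    set ε : ℝ := 1 / ((k : ℝ) + 1) with hε
    have hε0 : 0 < ε := by positivity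
    have hbound : ∀ n, P {ω | X n ω ∈ {w | ε * w.length ≤ |dev v w|}} ≤
        C * ENNReal.ofReal (ε ^ 2)⁻¹ * ENNReal.ofReal (3 / 4) ^ n := by
      intro n
      rw [h.prob_mem]
      have hpt : ∀ w, iter theta n [α] w ≠ 0 →
          Set.indicator {w : List Bool | ε * w.length ≤ |dev v w|} (1 : List Bool → ℝ≥0∞) w ≤
            ENNReal.ofReal ((ε ^ 2 * 4 ^ n)⁻¹) * ENNReal.ofReal (dev v w ^ 2) := by
        intro w hw
        have hlen := iter_length n α w ((PMF.mem_support_iff _ _).2 hw)
        by_cases hwS : ε * w.length ≤ |dev v w|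
        · rw [Set.indicator_of_mem (show w ∈ {w : List Bool | ε * w.length ≤ |dev v w|} from hwS)]
          rw [← ENNReal.ofReal_mul (by positivity), Pi.one_apply, ← ENNReal.ofReal_one]
          apply ENNReal.ofReal_le_ofReal
          have h1 : (2 : ℝ) ^ n ≤ w.length := by exact_mod_cast hlen
          have h2 : ε * 2 ^ n ≤ |dev v w| :=
            (mul_le_mul_of_nonneg_left h1 hε0.le).trans hwS
          have h3 : (ε * 2 ^ n) ^ 2 ≤ dev v w ^ 2 := by
            rw [← sq_abs (dev v w)]
            exact pow_le_pow_left₀ (by positivity) h2 2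
          have h4 : (ε * 2 ^ n) ^ 2 = ε ^ 2 * 4 ^ n := by
            rw [mul_pow, ← pow_mul, mul_comm n 2, pow_mul]
            norm_num
          rw [h4] at h3
          rw [inv_mul_eq_div, le_div_iff₀ (by positivity), one_mul]
          exact h3
        · rw [Set.indicator_of_notMem (show w ∉ {w : List Bool | ε * w.length ≤ |dev v w|} from
            hwS)]
          exact bot_le
      calc ee (iter theta n [α]) (Set.indicator {w : List Bool | ε * w.length ≤ |dev v w|} 1)
          ≤ ee (iter theta n [α]) (fun w => ENNReal.ofReal ((ε ^ 2 * 4 ^ n)⁻¹) *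
              ENNReal.ofReal (dev v w ^ 2)) := ee_mono' _ hpt
        _ = ENNReal.ofReal ((ε ^ 2 * 4 ^ n)⁻¹) * ee (iter theta n [α]) (fun w =>
              ENNReal.ofReal (dev v w ^ 2)) := ee_const_mul _ _ _
        _ ≤ ENNReal.ofReal ((ε ^ 2 * 4 ^ n)⁻¹) * (C * 3 ^ n) := by
            gcongr
            exact hmom n α
        _ = C * ENNReal.ofReal (ε ^ 2)⁻¹ * ENNReal.ofReal (3 / 4) ^ n := by
            have e1 : ENNReal.ofReal ((ε ^ 2 * 4 ^ n)⁻¹) =
                ENNReal.ofReal (ε ^ 2)⁻¹ * ENNReal.ofReal ((4 ^ n)⁻¹) := by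
              rw [← ENNReal.ofReal_mul (by positivity), mul_inv]
            have e2 : (3 : ℝ≥0∞) ^ n = ENNReal.ofReal (3 ^ n) := by
              rw [ENNReal.ofReal_pow (by norm_num)]
              norm_num
            have e3 : ENNReal.ofReal (3 / 4) ^ n = ENNReal.ofReal (3 ^ n) *
                ENNReal.ofReal ((4 ^ n)⁻¹) := by
              rw [← ENNReal.ofReal_pow (by norm_num), ← ENNReal.ofReal_mul (by positivity),
                div_pow, div_eq_mul_inv]
            rw [e1, e2, e3]
            ring
    refine ne_top_of_le_ne_top ?_ (ENNReal.tsum_le_tsum hbound)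
    rw [ENNReal.tsum_mul_left, ENNReal.tsum_geometric]
    apply ENNReal.mul_ne_top
    · exact ENNReal.mul_ne_top hC ENNReal.ofReal_ne_top
    · rw [ENNReal.inv_ne_top]
      have : ENNReal.ofReal (3 / 4) < 1 := by
        rw [← ENNReal.ofReal_one]
        exact (ENNReal.ofReal_lt_ofReal_iff (by norm_num)).2 (by norm_num)
      exact (tsub_pos_of_lt this).ne'
  have hall := ae_all_iff.2 key
  filter_upwards [hall] with ω hω
  rw [Metric.tendsto_atTop]
  intro ε hε
  obtain ⟨k, hk⟩ := exists_nat_one_div_lt hε
  obtain ⟨N, hN⟩ := eventually_atTop.1 (hω k)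
  refine ⟨N, fun n hn => ?_⟩
  have h1 := hN n hn
  have h2 : |dev v (X n ω)| < 1 / ((k : ℝ) + 1) * (X n ω).length := not_le.1 h1
  have hlen0 : 0 < ((X n ω).length : ℝ) := by
    by_contra hcon
    have h3 : ((X n ω).length : ℝ) = 0 := le_antisymm (not_lt.1 hcon) (Nat.cast_nonneg _)
    rw [h3, mul_zero] at h2
    exact absurd h2 (not_lt.2 (abs_nonneg _))
  rw [Real.dist_eq]
  have h4 : (occ v (X n ω) : ℝ) / ((X n ω).length : ℝ) - weight v =
      dev v (X n ω) / (X n ω).length := by
    unfold dev
    field_simp
  rw [h4, abs_div, abs_of_pos hlen0, div_lt_iff₀ hlen0]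
  calc |dev v (X n ω)| < 1 / ((k : ℝ) + 1) * (X n ω).length := h2
    _ ≤ ε * (X n ω).length := by gcongr

end Q78.Parry
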