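import Mathlib

/-!
# Random substitutions on two letters and their frequency measures

The letter `a` is `false`, the letter `b` is `true`.
-/

open Filter Topology MeasureTheory
open scoped ENNReal

namespace Q78.Parry

/-- A random substitution on the alphabet `{a, b}`: for each letter a probability law on words
with finitely many realisations (the words of positive probability), all of them nonempty. -/
structure RandSubst where
  /-- the law of the image of a letter -/
  law : Bool → PMF (List Bool)
  finite_support : ∀ α, (law α).support.Finite
  nil_notMem : ∀ α, [] ∉ (law α).support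

/-- The law of the random image of a word: every letter is replaced, independently, by a
realisation drawn according to `law`, and the results are concatenated. -/
noncomputable def RandSubst.image (θ : RandSubst) : List Bool → PMF (List Bool)
  | [] => PMF.pure []
  | x :: w => (θ.law x).bind fun u => (θ.image w).map fun u' => u ++ u'

/-- The substitution matrix: the entry `(β, α)` is the expected number of letters `β` in the image
of `α`. -/
noncomputable def RandSubst.matrix (θ : RandSubst) : Matrix Bool Bool ℝ :=
  fun β α => ∑' w : List Bool, (θ.law α w).toReal * (w.count β : ℝ)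

/-- `θ` is primitive: some power of the substitution matrix has all entries positive. -/
def RandSubst.Primitive (θ : RandSubst) : Prop :=
  ∃ k : ℕ, ∀ β α : Bool, 0 < (θ.matrix ^ k) β α

/-- The random words `X 0, X 1, X 2, …` on the probability space `(Ω, P)` are the iterates
`α, θ(α), θ²(α), …`: `X 0 = α` almost surely and, given `X 0, …, X n`, the word `X (n+1)` is
distributed as the random image of `X n`. -/
structure IsRun (θ : RandSubst) (α : Bool) {Ω : Type} [MeasurableSpace Ω] (P : Measure Ω)
    (X : ℕ → Ω → List Bool) : Prop where
  prob : IsProbabilityMeasure P
  meas : ∀ n w, MeasurableSet {ω | X n ω = w}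
  init : P {ω | X 0 ω = [α]} = 1
  step : ∀ (n : ℕ) (w : ℕ → List Bool), P {ω | ∀ i ≤ n + 1, X i ω = w i} =
    P {ω | ∀ i ≤ n, X i ω = w i} * θ.image (w n) (w (n + 1))

/-- The number of occurrences of `v` in `w` (the number of suffixes of `w` which begin
with `v`). -/
def occ (v w : List Bool) : ℕ := w.tails.countP fun t => v.isPrefixOf t

/-- The cylinder of all two-sided sequences in which the word `v` stands at position `m`. -/
def cyl (m : ℤ) (v : List Bool) : Set (ℤ → Bool) :=
  {x | ∀ (i : ℕ) (h : i < v.length), x (m + i) = v[i]}

/-- `μ` is the frequency measure of `θ`: a shift-invariant Borel probability measure such that for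
each letter `α` and each word `v`, the relative frequency of `v` in `θⁿ(α)` converges almost surely
to `μ([v])`. -/
structure IsFrequencyMeasure (θ : RandSubst) (μ : Measure (ℤ → Bool)) : Prop where
  prob : IsProbabilityMeasure μ
  invariant : μ.map (fun x i => x (i + 1)) = μ
  exists_run : ∀ α, ∃ (Ω : Type) (_ : MeasurableSpace Ω) (P : Measure Ω) (X : ℕ → Ω → List Bool),
    IsRun θ α P X
  freq : ∀ (α : Bool) (Ω : Type) (_ : MeasurableSpace Ω) (P : Measure Ω)
    (X : ℕ → Ω → List Bool), IsRun θ α P X → ∀ v : List Bool,
      ∀ᵐ ω ∂P, Tendsto (fun n => (occ v (X n ω) : ℝ) / ((X n ω).length : ℝ)) atTop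
        (𝓝 (μ (cyl 0 v)).toReal)

/-- The golden ratio. -/
noncomputable def tau : ℝ := (1 + √5) / 2

/-- The transition probabilities of the Parry measure of the golden mean shift. -/
noncomputable def trans : Bool → Bool → ℝ
  | false, false => tau⁻¹
  | false, true => (tau ^ 2)⁻¹
  | true, false => 1
  | true, true => 0

/-- The initial distribution of the Parry measure of the golden mean shift. -/
noncomputable def init : Bool → ℝ
  | false => tau ^ 2 / (tau ^ 2 + 1)
  | true => 1 / (tau ^ 2 + 1)

/-- Product of the transition probabilities along the word `x v`. -/
noncomputable def chain : Bool → List Bool → ℝ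
  | _, [] => 1
  | x, y :: v => trans x y * chain y v

/-- The probability of a word for the stationary Markov chain. -/
noncomputable def weight : List Bool → ℝ
  | [] => 1
  | x :: v => init x * chain x v

/-- `μ` is the Parry measure of the golden mean shift: the stationary Markov measure on `{a,b}^ℤ`
with transition probabilities `trans` and initial distribution `init`. -/
def IsParryMeasure (μ : Measure (ℤ → Bool)) : Prop :=
  ∀ (m : ℤ) (v : List Bool), μ (cyl m v) = ENNReal.ofReal (weight v)

end Q78.Parry
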