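import Pool.Agent.Q78.Parry.Conv

open Filter Topology MeasureTheory
open scoped ENNReal

namespace Q78.Parry

/-! ### Existence of runs -/

section runs

/-- the space of independent images -/
def Noise : Type := ℕ × List Bool → List Bool

/-- discrete measurable structure on words -/
@[reducible] def topWords : MeasurableSpace (List Bool) := ⊤

attribute [local instance] topWords

instance : DiscreteMeasurableSpace (List Bool) := ⟨fun _ => trivial⟩

instance noiseMeas : MeasurableSpace Noise := inferInstanceAs (MeasurableSpace
  (ℕ × List Bool → List Bool))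

/-- law of the noise -/
noncomputable def noiseLaw (θ : RandSubst) : Measure Noise :=
  Measure.infinitePi (fun p : ℕ × List Bool => (θ.image p.2).toMeasure)

/-- the run -/
def runX (α : Bool) : ℕ → Noise → List Bool
  | 0, _ => [α]
  | n + 1, ω => ω (n, runX α n ω)

theorem run_event (α : Bool) (n : ℕ) (w : ℕ → List Bool) (h0 : w 0 = [α]) :
    {ω : Noise | ∀ i ≤ n, runX α i ω = w i} =
      Set.pi (((Finset.range n).image (fun i => (i, w i)) : Finset (ℕ × List Bool)) :
        Set (ℕ × List Bool)) (fun p => {w (p.1 + 1)}) := by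
  ext ω
  constructor
  · intro h p hp
    have hp' : p ∈ (Finset.range n).image (fun i => (i, w i)) := hp
    rw [Finset.mem_image] at hp'
    obtain ⟨i, hi, rfl⟩ := hp'
    rw [Finset.mem_range] at hi
    have h1 : runX α i ω = w i := h i hi.le
    have h2 : runX α (i + 1) ω = w (i + 1) := h (i + 1) hi
    rw [runX, h1] at h2
    exact h2
  · intro h i hi
    induction i with
    | zero => rw [h0]; rfl
    | succ i ih =>
      have h1 := ih (by omega)
      rw [runX, h1]
      exact h (i, w i) (Finset.mem_coe.2 (Finset.mem_image.2 ⟨i, Finset.mem_range.2 (by omega),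
        rfl⟩))

theorem run_prob (θ : RandSubst) (α : Bool) (n : ℕ) (w : ℕ → List Bool) (h0 : w 0 = [α]) :
    noiseLaw θ {ω : Noise | ∀ i ≤ n, runX α i ω = w i} =
      ∏ i ∈ Finset.range n, θ.image (w i) (w (i + 1)) := by
  rw [run_event α n w h0]
  unfold noiseLaw
  have := Measure.infinitePi_pi (μ := fun p : ℕ × List Bool => (θ.image p.2).toMeasure)
    (s := (Finset.range n).image (fun i => (i, w i))) (t := fun p => {w (p.1 + 1)})
    (fun _ _ => MeasurableSet.singleton _)
  refine this.trans ?_
  rw [Finset.prod_image]
  · refine Finset.prod_congr rfl (fun i _ => ?_)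
    rw [PMF.toMeasure_apply_singleton _ _ (MeasurableSet.singleton _)]
  · intro i _ j _ hij
    exact (Prod.mk.inj hij).1

theorem measurable_runX (α : Bool) (n : ℕ) : Measurable (runX α n) := by
  induction n with
  | zero => exact measurable_const
  | succ n ih =>
    apply measurable_to_countable'
    intro w
    have : runX α (n + 1) ⁻¹' {w} = ⋃ u : List Bool, (runX α n ⁻¹' {u} ∩
        (fun ω : Noise => ω (n, u)) ⁻¹' {w}) := by
      ext ω
      simp only [Set.mem_preimage, Set.mem_singleton_iff, Set.mem_iUnion, Set.mem_inter_iff]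
      constructor
      · intro h; exact ⟨runX α n ω, rfl, h⟩
      · rintro ⟨u, h1, h2⟩
        rw [runX, h1]; exact h2
    rw [this]
    refine MeasurableSet.iUnion (fun u => ?_)
    refine MeasurableSet.inter (ih (MeasurableSet.singleton _)) ?_
    have : Measurable (fun ω : Noise => ω (n, u)) := measurable_pi_apply _
    exact this (MeasurableSet.singleton _)

theorem exists_run (θ : RandSubst) (α : Bool) :
    ∃ (Ω : Type) (_ : MeasurableSpace Ω) (P : Measure Ω) (X : ℕ → Ω → List Bool),
      IsRun θ α P X := by
  have hprob : IsProbabilityMeasure (noiseLaw θ) := by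
    unfold noiseLaw
    have : ∀ p : ℕ × List Bool, IsProbabilityMeasure (θ.image p.2).toMeasure := fun p =>
      PMF.toMeasure.isProbabilityMeasure _
    exact inferInstanceAs (IsProbabilityMeasure
      (Measure.infinitePi (fun p : ℕ × List Bool => (θ.image p.2).toMeasure)))
  refine ⟨Noise, inferInstance, noiseLaw θ, runX α, ⟨hprob, ?_, ?_, ?_⟩⟩
  · intro n w
    exact measurable_runX α n (MeasurableSet.singleton w)
  · have : {ω : Noise | runX α 0 ω = [α]} = Set.univ := by
      ext ω; simp [runX]
    rw [this]
    exact measure_univ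
  · intro n w
    by_cases h0 : w 0 = [α]
    · rw [run_prob θ α (n + 1) w h0, run_prob θ α n w h0, Finset.prod_range_succ]
    · have h1 : ∀ m, {ω : Noise | ∀ i ≤ m, runX α i ω = w i} = ∅ := by
        intro m
        ext ω
        simp only [Set.mem_ofPred_eq, Set.mem_empty_iff_false, iff_false]
        intro h
        exact h0 (h 0 (Nat.zero_le _)).symm
      rw [h1, h1]
      simp

end runs

/-! ### The Parry measure -/

open Classical in
/-- parity of the initial run of `true`. -/
noncomputable def gg (p : ℕ → Bool) : Bool :=
  if h : ∃ k, p k = false then decide (Odd (Nat.find h)) else false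

theorem gg_run {p : ℕ → Bool} {r : ℕ} (h1 : p r = false) (h2 : ∀ j < r, p j = true) :
    gg p = decide (Odd r) := by
  classical
  have h : ∃ k, p k = false := ⟨r, h1⟩
  unfold gg
  rw [dif_pos h]
  have : Nat.find h = r := by
    rw [Nat.find_eq_iff]
    refine ⟨h1, fun j hj => ?_⟩
    rw [h2 j hj]; simp
  rw [this]

theorem exists_run_of_mem {p : ℕ → Bool} (h : ∃ k, p k = false) :
    ∃ r, p r = false ∧ ∀ j < r, p j = true := by
  classical
  refine ⟨Nat.find h, Nat.find_spec h, fun j hj => ?_⟩
  have := Nat.find_min h hj
  simpa using this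

theorem gg_step {p : ℕ → Bool} (h : ∃ k, p (k + 1) = false) :
    gg p = (p 0 && !gg (fun k => p (k + 1))) := by
  obtain ⟨r, h1, h2⟩ := exists_run_of_mem (p := fun k => p (k + 1)) h
  rw [gg_run (p := fun k => p (k + 1)) h1 h2]
  cases h0 : p 0 with
  | false =>
    rw [gg_run (r := 0) h0 (by intro j hj; omega)]
    simp
  | true =>
    rw [gg_run (r := r + 1) h1 (by
      intro j hj
      cases j with
      | zero => exact h0
      | succ j => exact h2 j (by omega))]
    by_cases hr : Odd r
    · have : ¬ Odd (r + 1) := by
        rw [Nat.not_odd_iff_even]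
        exact hr.add_one
      simp [hr, this]
    · have : Odd (r + 1) := by
        rw [Nat.not_odd_iff_even] at hr
        exact hr.add_one
      simp [hr, this]

/-- i.i.d. coin flips -/
noncomputable def iid : Measure (ℤ → Bool) := Measure.infinitePi (fun _ : ℤ => coin.toMeasure)

instance : IsProbabilityMeasure coin.toMeasure := PMF.toMeasure.isProbabilityMeasure _

instance : IsProbabilityMeasure iid := by unfold iid; infer_instance

/-- the coding map -/
noncomputable def Phi (ω : ℤ → Bool) (n : ℤ) : Bool := gg (fun k : ℕ => ω (n - k))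

theorem measurable_Phi : Measurable Phi := by
  rw [measurable_pi_iff]
  intro n
  apply measurable_to_bool
  have : (fun ω => Phi ω n) ⁻¹' {true} = ⋃ k : ℕ, {ω : ℤ → Bool | Odd k ∧ ω (n - k) = false ∧
      ∀ j < k, ω (n - (j : ℕ)) = true} := by
    ext ω
    simp only [Set.mem_preimage, Set.mem_singleton_iff, Set.mem_iUnion, Set.mem_ofPred_eq]
    constructor
    · intro h
      have hex : ∃ k : ℕ, ω (n - k) = false := by
        by_contra hcon
        unfold Phi gg at h
        rw [dif_neg hcon] at h
        exact absurd h (by simp)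
      obtain ⟨r, h1, h2⟩ := exists_run_of_mem (p := fun k : ℕ => ω (n - k)) hex
      refine ⟨r, ?_, h1, h2⟩
      unfold Phi at h
      rw [gg_run h1 h2] at h
      simpa using h
    · rintro ⟨r, h0, h1, h2⟩
      unfold Phi
      rw [gg_run (p := fun k : ℕ => ω (n - k)) h1 h2]
      simpa using h0
  rw [this]
  refine MeasurableSet.iUnion (fun k => ?_)
  have h1 : ∀ (z : ℤ) (c : Bool), MeasurableSet {ω : ℤ → Bool | ω z = c} := by
    intro z c
    have hm : Measurable (fun ω : ℤ → Bool => ω z) := measurable_pi_apply z
    exact hm (MeasurableSet.singleton c)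
  refine (MeasurableSet.const _).inter ((h1 _ _).inter ?_)
  have : {ω : ℤ → Bool | ∀ j < k, ω (n - (j : ℕ)) = true} =
      ⋂ j ∈ Finset.range k, {ω : ℤ → Bool | ω (n - (j : ℕ)) = true} := by
    ext ω; simp
  show MeasurableSet {ω : ℤ → Bool | ∀ j < k, ω (n - (j : ℕ)) = true}
  rw [this]
  exact Finset.measurableSet_biInter _ (fun j _ => h1 _ _)

/-- the Parry measure -/
noncomputable def parry : Measure (ℤ → Bool) := iid.map Phi

/-- shift -/
def shift (x : ℤ → Bool) (i : ℤ) : Bool := x (i + 1)

theorem measurable_shift : Measurable shift := by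
  rw [measurable_pi_iff]
  intro i
  exact measurable_pi_apply (i + 1)

theorem iid_shift : iid.map shift = iid := by
  unfold iid
  apply Measure.eq_infinitePi
  intro s t ht
  rw [Measure.map_apply measurable_shift (MeasurableSet.pi s.countable_toSet (fun i _ => ht i))]
  have h1 : shift ⁻¹' (Set.pi s t) = Set.pi ((s.image (fun i => i + 1) : Finset ℤ) : Set ℤ)
      (fun i => t (i - 1)) := by
    ext ω
    constructor
    · intro h i hi
      have hi' : i ∈ s.image (fun i => i + 1) := hi
      rw [Finset.mem_image] at hi'
      obtain ⟨j, hj, rfl⟩ := hi'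
      have := h j hj
      show ω (j + 1) ∈ t (j + 1 - 1)
      rw [add_sub_cancel_right]
      exact this
    · intro h i hi
      have := h (i + 1) (Finset.mem_coe.2 (Finset.mem_image.2 ⟨i, hi, rfl⟩))
      have h2 : ω (i + 1) ∈ t (i + 1 - 1) := this
      rw [add_sub_cancel_right] at h2
      exact h2
  rw [h1, Measure.infinitePi_pi _ (fun i _ => MeasurableSet.of_discrete), Finset.prod_image]
  · refine Finset.prod_congr rfl (fun i _ => ?_)
    rw [add_sub_cancel_right]
  · intro i _ j _ hij
    exact add_right_cancel hij

theorem Phi_shift (ω : ℤ → Bool) : Phi (shift ω) = shift (Phi ω) := by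
  funext n
  unfold Phi shift
  congr 1
  funext k
  congr 1
  ring

theorem parry_shift : parry.map (fun x i => x (i + 1)) = parry := by
  show parry.map shift = parry
  unfold parry
  rw [Measure.map_map measurable_shift measurable_Phi]
  have : shift ∘ Phi = Phi ∘ shift := by
    funext ω
    exact (Phi_shift ω).symm
  rw [this, ← Measure.map_map measurable_Phi measurable_shift, iid_shift]

theorem coin_true : coin.toMeasure {true} = ENNReal.ofReal ss := by
  rw [PMF.toMeasure_apply_singleton _ _ (MeasurableSet.singleton _), coin_apply]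
  simp

theorem coin_false : coin.toMeasure {false} = ENNReal.ofReal (1 - ss) := by
  rw [PMF.toMeasure_apply_singleton _ _ (MeasurableSet.singleton _), coin_apply]
  simp

/-- admissible coin results -/
def stepSet (y z : Bool) : Set Bool := {c | (c && !y) = z}

theorem coin_stepSet (y z : Bool) : coin.toMeasure (stepSet y z) = ENNReal.ofReal (trans y z) := by
  cases y <;> cases z
  · have : stepSet false false = {false} := by ext c; cases c <;> simp [stepSet]
    rw [this, coin_false, trans_ff]
  · have : stepSet false true = {true} := by ext c; cases c <;> simp [stepSet]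
    rw [this, coin_true, trans_ft]
  · have : stepSet true false = Set.univ := by ext c; cases c <;> simp [stepSet]
    rw [this, trans_tf, measure_univ]
    simp
  · have : stepSet true true = ∅ := by ext c; cases c <;> simp [stepSet]
    rw [this, trans_tt]
    simp

theorem pi_insert_measure (s : Finset ℤ) (t : ℤ → Set Bool) (n : ℤ) (hn : n ∉ s) (S : Set Bool) :
    iid (Set.pi s t ∩ {ω | ω n ∈ S}) = iid (Set.pi s t) * coin.toMeasure S ∧
    Set.pi s t ∩ {ω | ω n ∈ S} = Set.pi ((insert n s : Finset ℤ) : Set ℤ)
      (fun i => if i = n then S else t i) := by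
  have h1 : Set.pi s t ∩ {ω | ω n ∈ S} = Set.pi ((insert n s : Finset ℤ) : Set ℤ)
      (fun i => if i = n then S else t i) := by
    ext ω
    simp only [Set.mem_inter_iff, Set.mem_pi, Set.mem_ofPred_eq, Finset.coe_insert,
      Set.mem_insert_iff, Finset.mem_coe]
    constructor
    · rintro ⟨h1, h2⟩ i hi
      by_cases hin : i = n
      · rw [if_pos hin, hin]; exact h2
      · rw [if_neg hin]
        exact h1 i (hi.resolve_left hin)
    · intro h
      refine ⟨fun i hi => ?_, ?_⟩
      · have := h i (Or.inr hi)
        have hne : i ≠ n := fun hin => hn (hin ▸ hi)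
        rwa [if_neg hne] at this
      · have := h n (Or.inl rfl)
        rwa [if_pos rfl] at this
  refine ⟨?_, h1⟩
  rw [h1]
  unfold iid
  rw [Measure.infinitePi_pi _ (fun i _ => MeasurableSet.of_discrete),
    Measure.infinitePi_pi _ (fun i _ => MeasurableSet.of_discrete), Finset.prod_insert hn,
    if_pos rfl, mul_comm]
  congr 1
  refine Finset.prod_congr rfl (fun i hi => ?_)
  have hne : i ≠ n := fun hin => hn (hin ▸ hi)
  rw [if_neg hne]

theorem Phi_step {ω : ℤ → Bool} {n : ℤ} (h : ∃ k : ℕ, ω (n - k) = false) :
    Phi ω (n + 1) = (ω (n + 1) && !Phi ω n) := by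
  unfold Phi
  have h1 : (fun k : ℕ => ω (n - k)) = fun k : ℕ => (fun k : ℕ => ω (n + 1 - k)) (k + 1) := by
    funext k
    show ω (n - k) = ω (n + 1 - ((k + 1 : ℕ) : ℤ))
    congr 1
    push_cast
    ring
  rw [h1]
  have h2 : ∃ k : ℕ, (fun k : ℕ => ω (n + 1 - k)) (k + 1) = false := by
    obtain ⟨k, hk⟩ := h
    refine ⟨k, ?_⟩
    have := congrFun h1 k
    exact this.symm.trans hk
  rw [gg_step h2]
  simp

theorem cyl_aux (v : List Bool) : ∀ (m : ℤ) (y : Bool) (s : Finset ℤ) (t : ℤ → Set Bool),
    (∀ i ∈ s, i ≤ m) →
    (∀ ω ∈ Set.pi (s : Set ℤ) t, (∃ k : ℕ, ω (m - k) = false) ∧ Phi ω m = y) →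
    iid (Set.pi s t ∩ {ω | ∀ (i : ℕ) (h : i < v.length), Phi ω (m + 1 + i) = v[i]}) =
      iid (Set.pi s t) * ENNReal.ofReal (chain y v) := by
  induction v with
  | nil =>
    intro m y s t hs hst
    simp [chain]
  | cons z v ih =>
    intro m y s t hs hst
    have hn : m + 1 ∉ s := fun h => by
      have := hs _ h
      omega
    obtain ⟨e1, e2⟩ := pi_insert_measure s t (m + 1) hn (stepSet y z)
    have key : ∀ ω ∈ Set.pi (s : Set ℤ) t, (Phi ω (m + 1) = z ↔ ω (m + 1) ∈ stepSet y z) := by
      intro ω hω
      obtain ⟨h1, h2⟩ := hst ω hω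
      rw [Phi_step h1, h2]
      rfl
    have e3 : (Set.pi s t ∩ {ω | ∀ (i : ℕ) (h : i < (z :: v).length),
        Phi ω (m + 1 + i) = (z :: v)[i]}) =
        Set.pi ((insert (m + 1) s : Finset ℤ) : Set ℤ)
          (fun i => if i = m + 1 then stepSet y z else t i) ∩
        {ω | ∀ (i : ℕ) (h : i < v.length), Phi ω ((m + 1) + 1 + i) = v[i]} := by
      rw [← e2]
      ext ω
      simp only [Set.mem_inter_iff, Set.mem_ofPred_eq]
      constructor
      · rintro ⟨h1, h2⟩
        refine ⟨⟨h1, ?_⟩, ?_⟩
        · have := h2 0 (by simp)
          simp only [Nat.cast_zero, add_zero, List.getElem_cons_zero] at this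
          exact (key ω h1).1 this
        · intro i hi
          have := h2 (i + 1) (by simpa using hi)
          simp only [List.getElem_cons_succ] at this
          rw [← this]
          congr 1
          push_cast
          ring
      · rintro ⟨⟨h1, h2⟩, h3⟩
        refine ⟨h1, ?_⟩
        intro i hi
        cases i with
        | zero =>
          simp only [Nat.cast_zero, add_zero, List.getElem_cons_zero]
          exact (key ω h1).2 h2
        | succ i =>
          have := h3 i (by simpa using hi)
          simp only [List.getElem_cons_succ]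
          rw [← this]
          congr 1
          push_cast
          ring
    rw [e3, ih (m + 1) z, ← e2, e1, coin_stepSet, chain, mul_assoc,
      ← ENNReal.ofReal_mul (trans_nonneg y z)]
    · intro i hi
      rw [Finset.mem_insert] at hi
      rcases hi with rfl | hi
      · exact le_rfl
      · have := hs i hi
        omega
    · intro ω hω
      rw [← e2] at hω
      obtain ⟨⟨k, hk⟩, h2⟩ := hst ω hω.1
      refine ⟨⟨k + 1, ?_⟩, (key ω hω.1).2 hω.2⟩
      rw [← hk]
      congr 1
      push_cast
      ring

/-- run events as product sets -/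
theorem run_measure (m : ℤ) (r : ℕ) :
    ∃ (s : Finset ℤ) (t : ℤ → Set Bool), (∀ i ∈ s, i ≤ m) ∧
      Set.pi (s : Set ℤ) t = {ω : ℤ → Bool | ω (m - r) = false ∧ ∀ j < r, ω (m - (j : ℕ)) = true} ∧
      iid (Set.pi (s : Set ℤ) t) = ENNReal.ofReal ((1 - ss) * ss ^ r) := by
  have hs1 := ss_pos
  have hs2 := ss_lt_one
  refine ⟨(Finset.range (r + 1)).image (fun j : ℕ => m - j),
    fun i => if i = m - r then {false} else {true}, ?_, ?_, ?_⟩
  · intro i hi
    rw [Finset.mem_image] at hi
    obtain ⟨j, -, rfl⟩ := hi
    omega
  · ext ω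
    simp only [Set.mem_pi, Finset.coe_image, Set.mem_image, Set.mem_ofPred_eq, Finset.coe_range,
      Set.mem_Iio]
    constructor
    · intro h
      refine ⟨?_, fun j hj => ?_⟩
      · have := h (m - r) ⟨r, by omega, rfl⟩
        rw [if_pos rfl] at this
        exact this
      · have := h (m - j) ⟨j, by omega, rfl⟩
        rw [if_neg (by omega)] at this
        exact this
    · rintro ⟨h1, h2⟩ i ⟨j, hj, rfl⟩
      by_cases hjr : j = r
      · subst hjr
        rw [if_pos rfl]; exact h1
      · rw [if_neg (by omega)]
        exact h2 j (by omega)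
  · unfold iid
    rw [Measure.infinitePi_pi _ (fun i _ => MeasurableSet.of_discrete), Finset.prod_image,
      Finset.prod_range_succ, if_pos rfl, coin_false]
    · have : ∏ x ∈ Finset.range r, coin.toMeasure (if m - (x : ℤ) = m - (r : ℤ) then {false}
          else {true}) = ENNReal.ofReal (ss ^ r) := by
        rw [ENNReal.ofReal_pow hs1.le]
        rw [Finset.prod_congr rfl (g := fun _ => ENNReal.ofReal ss)]
        · simp
        · intro x hx
          rw [Finset.mem_range] at hx
          rw [if_neg (by omega), coin_true]
      rw [this, ← ENNReal.ofReal_mul (by positivity), mul_comm]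
    · intro i _ j _ hij
      have : (i : ℤ) = j := by linarith
      exact_mod_cast this

theorem good_ae (m : ℤ) : iid {ω : ℤ → Bool | ¬ ∃ k : ℕ, ω (m - k) = false} = 0 := by
  have hs1 := ss_pos
  have hs2 := ss_lt_one
  have h : ∀ n : ℕ, iid {ω : ℤ → Bool | ¬ ∃ k : ℕ, ω (m - k) = false} ≤
      ENNReal.ofReal (ss) ^ n := by
    intro n
    have h1 : {ω : ℤ → Bool | ¬ ∃ k : ℕ, ω (m - k) = false} ⊆
        Set.pi (((Finset.range n).image (fun j : ℕ => m - j) : Finset ℤ) : Set ℤ)
          (fun _ => {true}) := by
      intro ω hω i hi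
      simp only [Finset.coe_image, Set.mem_image, Finset.coe_range, Set.mem_Iio] at hi
      obtain ⟨j, hj, rfl⟩ := hi
      rw [Set.mem_singleton_iff]
      by_contra hcon
      exact hω ⟨j, by simpa using hcon⟩
    refine (measure_mono h1).trans (le_of_eq ?_)
    unfold iid
    rw [Measure.infinitePi_pi _ (fun i _ => MeasurableSet.of_discrete), Finset.prod_image]
    · rw [Finset.prod_const, coin_true, Finset.card_range]
    · intro i _ j _ hij
      have : (i : ℤ) = j := by linarith
      exact_mod_cast this
  have hlim : Tendsto (fun n : ℕ => ENNReal.ofReal ss ^ n) atTop (𝓝 0) := by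
    apply ENNReal.tendsto_pow_atTop_nhds_zero_of_lt_one
    rw [← ENNReal.ofReal_one]
    exact (ENNReal.ofReal_lt_ofReal_iff (by norm_num)).2 hs2
  exact le_antisymm (ge_of_tendsto' hlim h) bot_le

/-- parity offset -/
def off (y : Bool) : ℕ := if y then 1 else 0

theorem off_parity (y : Bool) (k : ℕ) : decide (Odd (2 * k + off y)) = y := by
  cases y
  · simp [off]
  · simp [off]

theorem init_eq_off (y : Bool) : (1 - ss) * ss ^ off y * (1 - ss ^ 2)⁻¹ = init y := by
  have hs1 := ss_pos
  have hs2 := ss_lt_one
  have h3 : 1 - ss ^ 2 = (1 - ss) * (1 + ss) := by ring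
  have h4 : 1 - ss ≠ 0 := by linarith
  have h5 : 1 + ss ≠ 0 := by linarith
  cases y
  · rw [init_false, h3]
    simp only [off, Bool.false_eq_true, if_false, pow_zero]
    field_simp
  · rw [init_true, h3]
    simp only [off, if_true, pow_one]
    field_simp

theorem init_nonneg (y : Bool) : 0 ≤ init y := by
  have hs1 := ss_pos
  cases y
  · rw [init_false]; positivity
  · rw [init_true]; positivity

theorem measurable_cyl (m : ℤ) (v : List Bool) : MeasurableSet (cyl m v) := by
  have : cyl m v = ⋂ i : Fin v.length, {x : ℤ → Bool | x (m + (i : ℕ)) = v[i]} := by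
    ext x
    simp only [cyl, Set.mem_ofPred_eq, Set.mem_iInter]
    exact ⟨fun h i => h i i.2, fun h i hi => h ⟨i, hi⟩⟩
  rw [this]
  refine MeasurableSet.iInter (fun i => ?_)
  exact measurable_pi_apply _ (MeasurableSet.singleton _)

theorem parry_isParry : IsParryMeasure parry := by
  intro m v
  have hs1 := ss_pos
  have hs2 := ss_lt_one
  unfold parry
  rw [Measure.map_apply measurable_Phi (measurable_cyl m v)]
  cases v with
  | nil =>
    have : Phi ⁻¹' cyl m [] = Set.univ := by
      ext ω; simp [cyl]
    rw [this]
    simp [weight]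
  | cons y v =>
    -- decompose
    set A : ℕ → Set (ℤ → Bool) := fun k =>
      {ω : ℤ → Bool | ω (m - (2 * k + off y : ℕ)) = false ∧
        ∀ j < 2 * k + off y, ω (m - (j : ℕ)) = true} with hA
    set C : Set (ℤ → Bool) := {ω | ∀ (i : ℕ) (h : i < v.length), Phi ω (m + 1 + i) = v[i]} with hC
    have hae : (Phi ⁻¹' cyl m (y :: v) : Set (ℤ → Bool)) =ᵐ[iid] ⋃ k, (A k ∩ C) := by
      have hgood : ∀ᵐ ω ∂iid, ∃ k : ℕ, ω (m - k) = false := by
        rw [ae_iff]; exact good_ae m
      filter_upwards [hgood] with ω hω
      apply propext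
      obtain ⟨r, h1, h2⟩ := exists_run_of_mem (p := fun k : ℕ => ω (m - k)) hω
      have h3 : Phi ω m = decide (Odd r) := gg_run h1 h2
      have hcons : (ω ∈ Phi ⁻¹' cyl m (y :: v)) ↔ (Phi ω m = y ∧ ω ∈ C) := by
        simp only [Set.mem_preimage, cyl, Set.mem_ofPred_eq, hC]
        constructor
        · intro h
          refine ⟨?_, fun i hi => ?_⟩
          · have := h 0 (by simp)
            simpa using this
          · have := h (i + 1) (by simpa using hi)
            simp only [List.getElem_cons_succ] at this
            rw [← this]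
            congr 1
            push_cast
            ring
        · rintro ⟨h4, h5⟩ i hi
          cases i with
          | zero => simpa using h4
          | succ i =>
            have := h5 i (by simpa using hi)
            simp only [List.getElem_cons_succ]
            rw [← this]
            congr 1
            push_cast
            ring
      refine hcons.trans ?_
      show _ ↔ ω ∈ ⋃ k, (A k ∩ C)
      simp only [Set.mem_iUnion, Set.mem_inter_iff]
      constructor
      · rintro ⟨h4, h5⟩
        rw [h3] at h4
        obtain ⟨k, hk⟩ : ∃ k, r = 2 * k + off y := by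
          cases y with
          | false =>
            have : ¬ Odd r := by simpa using h4
            rw [Nat.not_odd_iff_even] at this
            obtain ⟨k, hk⟩ := this
            exact ⟨k, by simp [off]; omega⟩
          | true =>
            have : Odd r := by simpa using h4
            obtain ⟨k, hk⟩ := this
            exact ⟨k, by simp [off]; omega⟩
        subst hk
        exact ⟨k, ⟨h1, h2⟩, h5⟩
      · rintro ⟨k, ⟨h6, h7⟩, h5⟩
        refine ⟨?_, h5⟩
        have : Phi ω m = decide (Odd (2 * k + off y)) := gg_run h6 h7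
        rw [this, off_parity]
    rw [measure_congr hae, measure_iUnion]
    · have hk : ∀ k, iid (A k ∩ C) = ENNReal.ofReal ((1 - ss) * ss ^ (2 * k + off y) *
          chain y v) := by
        intro k
        obtain ⟨s, t, h1, h2, h3⟩ := run_measure m (2 * k + off y)
        have h4 := cyl_aux v m y s t h1 (by
          intro ω hω
          rw [h2] at hω
          refine ⟨⟨2 * k + off y, hω.1⟩, ?_⟩
          have : Phi ω m = decide (Odd (2 * k + off y)) := gg_run hω.1 hω.2
          rw [this, off_parity])
        rw [h3, h2, ← ENNReal.ofReal_mul (mul_nonneg (by linarith) (by positivity))] at h4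
        exact h4
      simp_rw [hk]
      rw [← ENNReal.ofReal_tsum_of_nonneg]
      · congr 1
        have hsum : HasSum (fun k : ℕ => (ss ^ 2) ^ k) (1 - ss ^ 2)⁻¹ :=
          hasSum_geometric_of_lt_one (by positivity) (by nlinarith)
        have h5 : HasSum (fun k : ℕ => (1 - ss) * ss ^ (2 * k + off y) * chain y v)
            ((1 - ss) * ss ^ off y * (1 - ss ^ 2)⁻¹ * chain y v) := by
          have := (hsum.mul_left ((1 - ss) * ss ^ off y)).mul_right (chain y v)
          refine this.congr_fun (fun k => ?_) |> fun h => h
          rw [pow_add, pow_mul]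
          ring
        rw [h5.tsum_eq, init_eq_off]
        rfl
      · intro k
        exact mul_nonneg (mul_nonneg (by linarith) (by positivity)) (chain_nonneg v y)
      · have hsum : HasSum (fun k : ℕ => (ss ^ 2) ^ k) (1 - ss ^ 2)⁻¹ :=
          hasSum_geometric_of_lt_one (by positivity) (by nlinarith)
        have h6 := ((hsum.mul_left ((1 - ss) * ss ^ off y)).mul_right (chain y v)).summable
        refine h6.congr (fun k => ?_)
        rw [pow_add, pow_mul]
        ring
    · intro k k' hkk
      rw [Function.onFun, Set.disjoint_left]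
      rintro ω ⟨⟨h1, h2⟩, -⟩ ⟨⟨h3, h4⟩, -⟩
      rcases lt_trichotomy k k' with h | h | h
      · have := h4 (2 * k + off y) (by omega)
        rw [h1] at this
        exact absurd this (by simp)
      · exact hkk h
      · have := h2 (2 * k' + off y) (by omega)
        rw [h3] at this
        exact absurd this (by simp)
    · intro k
      have h1 : ∀ (z : ℤ) (c : Bool), MeasurableSet {ω : ℤ → Bool | ω z = c} := by
        intro z c
        have hm : Measurable (fun ω : ℤ → Bool => ω z) := measurable_pi_apply z
        exact hm (MeasurableSet.singleton c)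
      refine MeasurableSet.inter ?_ ?_
      · refine (h1 _ _).inter ?_
        have : {ω : ℤ → Bool | ∀ j < 2 * k + off y, ω (m - (j : ℕ)) = true} =
            ⋂ j ∈ Finset.range (2 * k + off y), {ω : ℤ → Bool | ω (m - (j : ℕ)) = true} := by
          ext ω; simp
        show MeasurableSet {ω : ℤ → Bool | ∀ j < 2 * k + off y, ω (m - (j : ℕ)) = true}
        rw [this]
        exact Finset.measurableSet_biInter _ (fun j _ => h1 _ _)
      · have : C = Phi ⁻¹' cyl (m + 1) v := by
          ext ω; rfl
        rw [this]
        exact measurable_Phi (measurable_cyl _ _)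

/-! ### Primitivity -/

theorem theta_primitive : theta.Primitive := by
  have hs1 := ss_pos
  have hs2 := ss_lt_one
  refine ⟨1, fun β α => ?_⟩
  rw [pow_one]
  unfold RandSubst.matrix
  have hlaw : ∀ c, coin c ≤ theta.law α (img α c) := by
    intro c
    show coin c ≤ (coin.map (img α)) (img α c)
    rw [PMF.map_apply]
    refine le_trans ?_ (ENNReal.le_tsum c)
    simp
  have hcoin : ∀ c, 0 < coin c := by
    intro c
    rw [coin_apply]
    split_ifs
    · exact ENNReal.ofReal_pos.2 hs1
    · exact ENNReal.ofReal_pos.2 (by linarith)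
  have hex : ∃ c, 0 < (img α c).count β := by
    refine ⟨true, ?_⟩
    cases α <;> cases β <;> decide
  obtain ⟨c, hc⟩ := hex
  have hsumm : Summable (fun w : List Bool => (theta.law α w).toReal * (w.count β : ℝ)) := by
    apply summable_of_hasFiniteSupport
    refine (theta.finite_support α).subset ?_
    intro w hw
    rw [PMF.mem_support_iff]
    intro h0
    apply hw
    simp [h0]
  refine hsumm.tsum_pos (fun w => by positivity) (img α c) ?_
  apply mul_pos
  · apply ENNReal.toReal_pos
    · exact ((hcoin c).trans_le (hlaw c)).ne'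
    · exact PMF.apply_ne_top _ _
  · exact_mod_cast hc

end Q78.Parry
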