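import Pool.Agent.Q78.Parry.Mart

open Filter Topology MeasureTheory
open scoped ENNReal

namespace Q78.Parry

/-! ### Expectation of nonnegative functions -/

/-- expectation -/
noncomputable def ee {α : Type} (p : PMF α) (g : α → ℝ≥0∞) : ℝ≥0∞ := ∑' x, p x * g x

theorem ee_pure {α : Type} (a : α) (g : α → ℝ≥0∞) : ee (PMF.pure a) g = g a := by
  unfold ee
  rw [tsum_eq_single a]
  · simp
  · intro b hb
    simp [PMF.pure_apply, hb]

theorem ee_bind {α β : Type} (p : PMF α) (f : α → PMF β) (g : β → ℝ≥0∞) :
    ee (p.bind f) g = ee p (fun a => ee (f a) g) := by
  unfold ee
  simp only [PMF.bind_apply]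
  simp_rw [← ENNReal.tsum_mul_right, ← ENNReal.tsum_mul_left]
  rw [ENNReal.tsum_comm]
  refine tsum_congr (fun a => tsum_congr (fun b => ?_))
  ring

theorem ee_map {α β : Type} (p : PMF α) (f : α → β) (g : β → ℝ≥0∞) :
    ee (p.map f) g = ee p (fun a => g (f a)) := by
  unfold PMF.map
  rw [ee_bind]
  simp only [Function.comp_apply, ee_pure]

theorem ee_mono {α : Type} (p : PMF α) {g h : α → ℝ≥0∞} (H : ∀ a, g a ≤ h a) :
    ee p g ≤ ee p h :=
  ENNReal.tsum_le_tsum (fun a => mul_le_mul_right (H a) _)

theorem ee_add {α : Type} (p : PMF α) (g h : α → ℝ≥0∞) :
    ee p (fun a => g a + h a) = ee p g + ee p h := by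
  unfold ee
  rw [← ENNReal.tsum_add]
  exact tsum_congr (fun a => mul_add _ _ _)

theorem ee_const {α : Type} (p : PMF α) (c : ℝ≥0∞) : ee p (fun _ => c) = c := by
  unfold ee
  rw [ENNReal.tsum_mul_right, p.tsum_coe, one_mul]

theorem ee_const_mul {α : Type} (p : PMF α) (c : ℝ≥0∞) (g : α → ℝ≥0∞) :
    ee p (fun a => c * g a) = c * ee p g := by
  unfold ee
  rw [← ENNReal.tsum_mul_left]
  exact tsum_congr (fun a => by ring)

/-! ### The substitution -/

theorem coin_sum : ∑ c : Bool, (if c then ENNReal.ofReal ss else ENNReal.ofReal (1 - ss)) = 1 := by
  have h1 := ss_pos
  have h2 := ss_lt_one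
  rw [Fintype.sum_bool]
  simp only [if_true, Bool.false_eq_true, if_false]
  rw [← ENNReal.ofReal_add h1.le (by linarith)]
  simp

/-- A coin with success probability `τ⁻²`. -/
noncomputable def coin : PMF Bool :=
  PMF.ofFintype (fun c => if c then ENNReal.ofReal ss else ENNReal.ofReal (1 - ss)) coin_sum

theorem coin_apply (c : Bool) :
    coin c = if c then ENNReal.ofReal ss else ENNReal.ofReal (1 - ss) := rfl

theorem ee_coin (g : Bool → ℝ≥0∞) :
    ee coin g = ENNReal.ofReal ss * g true + ENNReal.ofReal (1 - ss) * g false := by
  unfold ee
  rw [tsum_fintype, Fintype.sum_bool]
  simp [coin_apply]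

/-- images of the letters -/
def img : Bool → Bool → List Bool
  | false, false => [false, false]
  | false, true => [false, true, false]
  | true, false => [true, false]
  | true, true => [true, false, true]

theorem theta_finite (α : Bool) : (coin.map (img α)).support.Finite := by
  rw [PMF.support_map]
  exact (Set.toFinite _).image _

theorem theta_nil (α : Bool) : [] ∉ (coin.map (img α)).support := by
  rw [PMF.support_map]
  rintro ⟨c, -, hc⟩
  cases α <;> cases c <;> simp [img] at hc

/-- The random substitution `a ↦ aa` (`τ⁻¹`), `aba` (`τ⁻²`); `b ↦ ba` (`τ⁻¹`), `bab` (`τ⁻²`). -/
noncomputable def theta : RandSubst where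
  law α := coin.map (img α)
  finite_support := theta_finite
  nil_notMem := theta_nil

/-- law of the `n`-th iterate -/
noncomputable def iter (θ : RandSubst) : ℕ → List Bool → PMF (List Bool)
  | 0, w => PMF.pure w
  | n + 1, w => (iter θ n w).bind θ.image

theorem image_append (θ : RandSubst) (u w : List Bool) :
    θ.image (u ++ w) = (θ.image u).bind fun u' => (θ.image w).map fun w' => u' ++ w' := by
  induction u with
  | nil =>
    simp only [List.nil_append, RandSubst.image, PMF.pure_bind]
    exact (PMF.map_id _).symm
  | cons x u ih =>
    simp only [List.cons_append, RandSubst.image]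
    rw [PMF.bind_bind]
    congr 1
    funext y
    rw [ih, PMF.map_bind, PMF.bind_map]
    congr 1
    funext z
    simp only [Function.comp_apply]
    rw [PMF.map_comp]
    congr 1
    funext t
    simp

theorem iter_append (θ : RandSubst) (n : ℕ) (u w : List Bool) :
    iter θ n (u ++ w) = (iter θ n u).bind fun u' => (iter θ n w).map fun w' => u' ++ w' := by
  induction n with
  | zero => simp [iter, PMF.pure_bind, PMF.pure_map]
  | succ n ih =>
    simp only [iter]
    rw [ih, PMF.bind_bind, PMF.bind_bind]
    congr 1
    funext x
    rw [PMF.bind_map]
    have h1 : (θ.image ∘ fun w' => x ++ w') = fun y =>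
        (θ.image x).bind fun u' => (θ.image y).map fun w' => u' ++ w' := by
      funext y
      exact image_append θ x y
    rw [h1, PMF.bind_comm]
    congr 1
    funext z
    rw [PMF.map_bind]

theorem iter_succ' (θ : RandSubst) (n : ℕ) (w : List Bool) :
    iter θ (n + 1) w = (θ.image w).bind (iter θ n) := by
  induction n with
  | zero =>
    simp only [iter, PMF.pure_bind]
    exact (PMF.bind_pure _).symm
  | succ n ih =>
    rw [iter, ih, PMF.bind_bind]
    rfl

theorem image_single (θ : RandSubst) (x : Bool) : θ.image [x] = θ.law x := by
  simp only [RandSubst.image, PMF.pure_map, List.append_nil]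
  exact PMF.bind_pure _

/-- the laws of the stopped block sequences -/
noncomputable def UV : ℕ → PMF (List Bool) × PMF (List Bool)
  | 0 => (PMF.pure [], PMF.pure [])
  | n + 1 => 
    ((UV n).1.bind fun u => coin.bind fun c => if c then
        (UV n).2.bind fun v => (UV n).1.map fun u' => u ++ ([false, true] ++ (v ++ u'))
        else (UV n).1.map fun u' => u ++ ([false] ++ u'),
     (UV n).2.bind fun v => (UV n).1.bind fun u => coin.bind fun c => if c then
        (UV n).2.map fun v' => v ++ (u ++ ([false, true] ++ v'))
        else PMF.pure (v ++ (u ++ [false])))

theorem iter_theta (n : ℕ) :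
    iter theta n [false] = (UV n).1.map (fun u => u ++ [false]) ∧
    iter theta n [true] = (UV n).2.map (fun v => [true] ++ v) := by
  induction n with
  | zero => simp [iter, UV, PMF.pure_map]
  | succ n ih =>
    obtain ⟨ih1, ih2⟩ := ih
    have haa : iter theta n [false, false] = (UV n).1.bind fun u => (UV n).1.map fun u' =>
        u ++ ([false] ++ u') ++ [false] := by
      have := iter_append theta n [false] [false]
      rw [List.singleton_append] at this
      rw [this, ih1, PMF.bind_map]
      congr 1
      funext u
      simp only [Function.comp_apply, PMF.map_comp]
      congr 1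
      funext u'
      simp
    have hba : iter theta n [true, false] = (UV n).2.bind fun v => (UV n).1.map fun u =>
        [true] ++ (v ++ (u ++ [false])) := by
      have := iter_append theta n [true] [false]
      rw [List.singleton_append] at this
      rw [this, ih1, ih2, PMF.bind_map]
      congr 1
      funext u
      simp only [Function.comp_apply, PMF.map_comp]
      congr 1
    have haba : iter theta n [false, true, false] = (UV n).1.bind fun u => (UV n).2.bind fun v =>
        (UV n).1.map fun u' => u ++ ([false, true] ++ (v ++ u')) ++ [false] := by
      have := iter_append theta n [false] [true, false]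
      rw [List.singleton_append] at this
      rw [this, ih1, hba, PMF.bind_map]
      congr 1
      funext u
      simp only [Function.comp_apply]
      rw [PMF.map_bind]
      congr 1
      funext v
      rw [PMF.map_comp]
      congr 1
      funext u'
      simp
    have hbab : iter theta n [true, false, true] = (UV n).2.bind fun v => (UV n).1.bind fun u =>
        (UV n).2.map fun v' => [true] ++ (v ++ (u ++ ([false, true] ++ v'))) := by
      have := iter_append theta n [true, false] [true]
      rw [List.cons_append, List.singleton_append] at this
      rw [this, ih2, hba, PMF.bind_bind]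
      congr 1
      funext v
      rw [PMF.bind_map]
      congr 1
      funext u
      simp only [Function.comp_apply]
      rw [PMF.map_comp]
      congr 1
      funext v'
      simp
    constructor
    · rw [iter_succ', image_single]
      show (coin.map (img false)).bind (iter theta n) = _
      rw [PMF.bind_map]
      simp only [UV]
      rw [PMF.bind_comm, PMF.map_bind]
      congr 1
      funext c
      cases c with
      | false =>
        simp only [Function.comp_apply, img, haa, Bool.false_eq_true, if_false]
        rw [PMF.map_bind]
        congr 1
        funext u
        rw [PMF.map_comp]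
        rfl
      | true =>
        simp only [Function.comp_apply, img, haba, if_true]
        rw [PMF.map_bind]
        congr 1
        funext u
        rw [PMF.map_bind]
        congr 1
        funext v
        rw [PMF.map_comp]
        rfl
    · rw [iter_succ', image_single]
      show (coin.map (img true)).bind (iter theta n) = _
      rw [PMF.bind_map]
      simp only [UV]
      have e1 : ((UV n).2.bind fun v => (UV n).1.bind fun u => coin.bind fun c =>
          if c = true then (UV n).2.map fun v' => v ++ (u ++ ([false, true] ++ v'))
          else PMF.pure (v ++ (u ++ [false]))) =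
          (coin.bind fun c => (UV n).2.bind fun v => (UV n).1.bind fun u =>
          if c = true then (UV n).2.map fun v' => v ++ (u ++ ([false, true] ++ v'))
          else PMF.pure (v ++ (u ++ [false]))) := by
        rw [PMF.bind_comm coin]
        congr 1
        funext v
        rw [PMF.bind_comm coin]
      rw [e1, PMF.map_bind]
      congr 1
      funext c
      cases c with
      | false =>
        simp only [Function.comp_apply, img, hba, Bool.false_eq_true, if_false]
        rw [PMF.map_bind]
        congr 1
        funext v
        rw [PMF.map_bind]
        unfold PMF.map
        congr 1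
        funext u
        rw [PMF.pure_bind]
        rfl
      | true =>
        simp only [Function.comp_apply, img, hbab, if_true]
        rw [PMF.map_bind]
        congr 1
        funext v
        rw [PMF.map_bind]
        congr 1
        funext u
        rw [PMF.map_comp]
        rfl

/-- abstract supermartingale estimate. -/
theorem UV_bound (G : List Bool → ℝ≥0∞) (K : ℝ≥0∞)
    (hG : ∀ w, ee coin (fun c => if c then G (w ++ [false, true]) else G (w ++ [false])) ≤ G w + K)
    (n : ℕ) :
    (∀ w, ee (UV n).1 (fun u => G (w ++ u)) ≤ G w + K * 3 ^ n) ∧
    (∀ w, ee (UV n).2 (fun v => G (w ++ v)) ≤ G w + K * 3 ^ n) := by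
  suffices h : ∃ k : ℕ, 2 * k + 1 ≤ 3 ^ n ∧
      (∀ w, ee (UV n).1 (fun u => G (w ++ u)) ≤ G w + K * k) ∧
      (∀ w, ee (UV n).2 (fun v => G (w ++ v)) ≤ G w + K * k) by
    obtain ⟨k, hk, h1, h2⟩ := h
    have hle : K * (k : ℝ≥0∞) ≤ K * 3 ^ n := by
      apply mul_le_mul_right
      have : k ≤ 3 ^ n := by omega
      exact_mod_cast this
    exact ⟨fun w => (h1 w).trans (add_le_add_right hle _),
      fun w => (h2 w).trans (add_le_add_right hle _)⟩
  induction n with
  | zero =>
    refine ⟨0, by norm_num, fun w => ?_, fun w => ?_⟩ <;> simp [UV, ee_pure]
  | succ n ih =>
    obtain ⟨k, hk, h1, h2⟩ := ih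
    refine ⟨3 * k + 1, ?_, fun w => ?_, fun w => ?_⟩
    · rw [pow_succ]; omega
    · simp only [UV]
      rw [ee_bind]
      have hin : ∀ u, ee (coin.bind fun c => if c = true then
          (UV n).2.bind fun v => (UV n).1.map fun u' => u ++ ([false, true] ++ (v ++ u'))
          else (UV n).1.map fun u' => u ++ ([false] ++ u')) (fun u => G (w ++ u)) ≤
          G (w ++ u) + (K + (K * k + K * k)) := by
        intro u
        rw [ee_bind]
        calc ee coin (fun c => ee (if c = true then
              (UV n).2.bind fun v => (UV n).1.map fun u' => u ++ ([false, true] ++ (v ++ u'))
              else (UV n).1.map fun u' => u ++ ([false] ++ u')) (fun u => G (w ++ u)))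
            ≤ ee coin (fun c => (if c = true then G ((w ++ u) ++ [false, true]) else
                G ((w ++ u) ++ [false])) + (K * k + K * k)) := by
              apply ee_mono
              intro c
              cases c with
              | false =>
                simp only [Bool.false_eq_true, if_false]
                rw [ee_map]
                have := h1 ((w ++ u) ++ [false])
                simp only [List.append_assoc] at this ⊢
                refine this.trans ?_
                gcongr
                exact le_self_add
              | true =>
                simp only [if_true]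
                rw [ee_bind]
                calc ee (UV n).2 (fun v => ee ((UV n).1.map fun u' =>
                      u ++ ([false, true] ++ (v ++ u'))) (fun u => G (w ++ u)))
                    ≤ ee (UV n).2 (fun v => G (((w ++ u) ++ [false, true]) ++ v) + K * k) := by
                      apply ee_mono
                      intro v
                      rw [ee_map]
                      have := h1 (((w ++ u) ++ [false, true]) ++ v)
                      simp only [List.append_assoc] at this ⊢
                      exact this
                  _ = ee (UV n).2 (fun v => G (((w ++ u) ++ [false, true]) ++ v)) + K * k := by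
                      rw [ee_add, ee_const]
                  _ ≤ (G ((w ++ u) ++ [false, true]) + K * k) + K * k := by
                      gcongr
                      exact h2 _
                  _ = _ := by rw [add_assoc]
          _ = ee coin (fun c => (if c = true then G ((w ++ u) ++ [false, true]) else
                G ((w ++ u) ++ [false]))) + (K * k + K * k) := by
              rw [ee_add, ee_const]
          _ ≤ (G (w ++ u) + K) + (K * k + K * k) := by
              gcongr
              exact hG _
          _ = _ := by rw [add_assoc]
      calc _ ≤ ee (UV n).1 (fun u => G (w ++ u) + (K + (K * k + K * k))) := ee_mono _ hin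
        _ = ee (UV n).1 (fun u => G (w ++ u)) + (K + (K * k + K * k)) := by
            rw [ee_add, ee_const]
        _ ≤ (G w + K * k) + (K + (K * k + K * k)) := by
            gcongr
            exact h1 w
        _ = G w + K * ((3 * k + 1 : ℕ) : ℝ≥0∞) := by
            push_cast
            ring
    · simp only [UV]
      rw [ee_bind]
      have hin : ∀ v u, ee (coin.bind fun c => if c = true then
          (UV n).2.map fun v' => v ++ (u ++ ([false, true] ++ v'))
          else PMF.pure (v ++ (u ++ [false]))) (fun u => G (w ++ u)) ≤
          G ((w ++ v) ++ u) + (K + K * k) := by
        intro v u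
        rw [ee_bind]
        calc ee coin (fun c => ee (if c = true then
              (UV n).2.map fun v' => v ++ (u ++ ([false, true] ++ v'))
              else PMF.pure (v ++ (u ++ [false]))) (fun u => G (w ++ u)))
            ≤ ee coin (fun c => (if c = true then G (((w ++ v) ++ u) ++ [false, true]) else
                G (((w ++ v) ++ u) ++ [false])) + K * k) := by
              apply ee_mono
              intro c
              cases c with
              | false =>
                simp only [Bool.false_eq_true, if_false]
                rw [ee_pure]
                simp only [List.append_assoc]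
                exact le_self_add
              | true =>
                simp only [if_true]
                rw [ee_map]
                have := h2 (((w ++ v) ++ u) ++ [false, true])
                simp only [List.append_assoc] at this ⊢
                exact this
          _ = ee coin (fun c => (if c = true then G (((w ++ v) ++ u) ++ [false, true]) else
                G (((w ++ v) ++ u) ++ [false]))) + K * k := by
              rw [ee_add, ee_const]
          _ ≤ (G ((w ++ v) ++ u) + K) + K * k := by
              gcongr
              exact hG _
          _ = _ := by rw [add_assoc]
      calc _ ≤ ee (UV n).2 (fun v => G (w ++ v) + (K * k + (K + K * k))) := by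
              apply ee_mono
              intro v
              rw [ee_bind]
              calc _ ≤ ee (UV n).1 (fun u => G ((w ++ v) ++ u) + (K + K * k)) :=
                    ee_mono _ (hin v)
                _ = ee (UV n).1 (fun u => G ((w ++ v) ++ u)) + (K + K * k) := by
                    rw [ee_add, ee_const]
                _ ≤ (G (w ++ v) + K * k) + (K + K * k) := by
                    gcongr
                    exact h1 _
                _ = _ := by rw [add_assoc]
        _ = ee (UV n).2 (fun v => G (w ++ v)) + (K * k + (K + K * k)) := by
            rw [ee_add, ee_const]
        _ ≤ (G w + K * k) + (K * k + (K + K * k)) := by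
            gcongr
            exact h2 w
        _ = G w + K * ((3 * k + 1 : ℕ) : ℝ≥0∞) := by
            push_cast
            ring

end Q78.Parry
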