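import Pool.Agent.Q78.Parry.Defs

open Filter Topology MeasureTheory
open scoped ENNReal

namespace Q78.Parry

/-! ### Golden mean identities -/

theorem tau_pos : 0 < tau := by
  unfold tau; positivity

theorem tau_sq : tau ^ 2 = tau + 1 := by
  unfold tau
  have : (√5 : ℝ) ^ 2 = 5 := Real.sq_sqrt (by norm_num)
  nlinarith

theorem one_lt_tau : 1 < tau := by
  have h1 := tau_pos
  have h2 := tau_sq
  nlinarith

/-- `τ⁻²`. -/
noncomputable def ss : ℝ := (tau ^ 2)⁻¹

theorem ss_pos : 0 < ss := by
  have := tau_pos
  unfold ss; positivity

theorem inv_tau_eq : tau⁻¹ = 1 - ss := by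
  have h0 := tau_pos
  have h1 := tau_sq
  unfold ss
  field_simp
  linarith

theorem ss_lt_one : ss < 1 := by
  have h0 := tau_pos
  have h : 0 < tau⁻¹ := by positivity
  rw [inv_tau_eq] at h
  linarith

theorem init_false : init false = 1 / (1 + ss) := by
  have h0 := tau_pos
  unfold init ss
  field_simp

theorem init_true : init true = ss / (1 + ss) := by
  have h0 := tau_pos
  unfold init ss
  field_simp

theorem trans_ff : trans false false = 1 - ss := by rw [← inv_tau_eq]; rfl
theorem trans_ft : trans false true = ss := rfl
theorem trans_tf : trans true false = 1 := rfl
theorem trans_tt : trans true true = 0 := rfl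

theorem trans_nonneg (x y : Bool) : 0 ≤ trans x y := by
  have h1 := ss_pos
  have h2 := ss_lt_one
  cases x <;> cases y <;> simp only [trans_ff, trans_ft, trans_tf, trans_tt] <;> linarith

theorem trans_le_one (x y : Bool) : trans x y ≤ 1 := by
  have h1 := ss_pos
  have h2 := ss_lt_one
  cases x <;> cases y <;> simp only [trans_ff, trans_ft, trans_tf, trans_tt] <;> linarith

theorem chain_nonneg (v : List Bool) : ∀ x, 0 ≤ chain x v := by
  induction v with
  | nil => intro x; simp [chain]
  | cons y v ih => intro x; exact mul_nonneg (trans_nonneg x y) (ih y)

theorem chain_le_one (v : List Bool) : ∀ x, chain x v ≤ 1 := by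
  induction v with
  | nil => intro x; simp [chain]
  | cons y v ih =>
    intro x
    exact mul_le_one₀ (trans_le_one x y) (chain_nonneg v y) (ih y)

/-! ### The compensated number of occurrences -/

/-- Probability that the random sequence `u ξ₁ ξ₂ …` begins with `v`, where the `ξᵢ` are
independent blocks `a` or `ab`. -/
noncomputable def F : List Bool → List Bool → ℝ
  | [], _ => 1
  | y :: v, [] => chain true (y :: v)
  | y :: v, x :: u => if x = y then F v u else 0

theorem F_nil_right (v : List Bool) : F v [] = chain true v := by
  cases v with
  | nil => simp [F, chain]
  | cons y v => rw [F]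

theorem F_nil_left (u : List Bool) : F [] u = 1 := by rw [F]

theorem F_cons (y : Bool) (v : List Bool) (x : Bool) (u : List Bool) :
    F (y :: v) (x :: u) = if x = y then F v u else 0 := by rw [F]

theorem F_nonneg (v : List Bool) : ∀ u, 0 ≤ F v u := by
  induction v with
  | nil => intro u; simp [F]
  | cons y v ih =>
    intro u
    cases u with
    | nil => rw [F]; exact chain_nonneg _ _
    | cons x u =>
      rw [F]
      split_ifs
      · exact ih u
      · exact le_rfl

theorem F_le_one (v : List Bool) : ∀ u, F v u ≤ 1 := by
  induction v with
  | nil => intro u; simp [F]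
  | cons y v ih =>
    intro u
    cases u with
    | nil => rw [F]; exact chain_le_one _ _
    | cons x u =>
      rw [F]
      split_ifs
      · exact ih u
      · exact zero_le_one

theorem F_of_length_le (v : List Bool) : ∀ u, v.length ≤ u.length →
    F v u = if v.isPrefixOf u then 1 else 0 := by
  induction v with
  | nil => intro u _; simp [F]
  | cons y v ih =>
    intro u hu
    cases u with
    | nil => simp at hu
    | cons x u =>
      have hu' : v.length ≤ u.length := by simpa using hu
      rw [F, ih u hu']
      by_cases h : x = y
      · subst h
        simp
      · have : ¬ y = x := fun h' => h h'.symm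
        simp [h, this]

/-- consistency -/
theorem F_step (v : List Bool) : ∀ u, (1 - ss) * F v (u ++ [false]) + ss * F v (u ++ [false, true])
    = F v u := by
  induction v with
  | nil => intro u; simp [F]
  | cons y v ih =>
    intro u
    cases u with
    | nil =>
      rw [F_nil_right]
      simp only [List.nil_append, F_cons]
      cases y with
      | true => simp [chain, trans_tt]
      | false =>
        simp only [if_true, F_nil_right, chain, trans_tf, one_mul]
        cases v with
        | nil => simp [chain, F]
        | cons z v =>
          rw [F_cons, F_nil_right]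
          cases z with
          | false => simp [chain, trans_tf, trans_ff]
          | true => simp [chain, trans_tt, trans_ft]
    | cons x u =>
      simp only [List.cons_append, F_cons]
      split_ifs
      · exact ih u
      · ring

/-- Expected number of occurrences of `v` in `w ξ₁ ξ₂ …` which start in `w`. -/
noncomputable def H (v : List Bool) : List Bool → ℝ
  | [] => 0
  | x :: w => F v (x :: w) + H v w

theorem weight_eq (v : List Bool) : F v [] + ss * F v [true] = (1 + ss) * weight v := by
  have h1 := ss_pos
  cases v with
  | nil => simp [F, weight]
  | cons y v =>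
    rw [F_nil_right, F_cons, F_nil_right]
    cases y with
    | false =>
      simp only [chain, trans_tf, weight, init_false]
      simp
      field_simp
    | true =>
      simp only [chain, trans_tt, weight, init_true]
      simp
      field_simp

theorem H_step (v w : List Bool) :
    (1 - ss) * H v (w ++ [false]) + ss * H v (w ++ [false, true]) =
      H v w + (1 + ss) * weight v := by
  induction w with
  | nil =>
    simp only [List.nil_append, H]
    rw [← weight_eq, ← F_step v []]
    simp only [List.nil_append]
    ring
  | cons x w ih =>
    simp only [List.cons_append, H]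
    have := F_step v (x :: w)
    simp only [List.cons_append] at this
    linarith

/-- The martingale. -/
noncomputable def Mart (v w : List Bool) : ℝ := H v w - weight v * w.length

theorem Mart_step (v w : List Bool) :
    (1 - ss) * Mart v (w ++ [false]) + ss * Mart v (w ++ [false, true]) = Mart v w := by
  unfold Mart
  have := H_step v w
  simp only [List.length_append, List.length_cons, List.length_nil]
  push_cast
  linarith

theorem H_append_bound (v w x : List Bool) :
    |H v (w ++ x) - H v w| ≤ x.length + min w.length v.length := by
  induction w with
  | nil =>
    have h : ∀ x : List Bool, 0 ≤ H v x ∧ H v x ≤ x.length := by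
      intro x
      induction x with
      | nil => simp [H]
      | cons y x ih =>
        rw [H]
        have h1 := F_nonneg v (y :: x)
        have h2 := F_le_one v (y :: x)
        simp only [List.length_cons]
        push_cast
        constructor <;> linarith [ih.1, ih.2]
    simp only [List.nil_append, H, sub_zero]
    rw [abs_of_nonneg (h x).1]
    simpa using (h x).2
  | cons y w ih =>
    simp only [List.cons_append, H]
    by_cases hlen : v.length ≤ (y :: w).length
    · have e1 : F v (y :: (w ++ x)) = F v (y :: w) := by
        rw [F_of_length_le v (y :: w) hlen, F_of_length_le]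
        · congr 1
          simp only [eq_iff_iff, List.isPrefixOf_iff_prefix]
          rw [← List.cons_append]
          constructor
          · intro h
            exact List.prefix_of_prefix_length_le h (List.prefix_append _ _) hlen
          · intro h
            exact h.trans (List.prefix_append _ _)
        · simp only [List.length_cons, List.length_append] at hlen ⊢
          omega
      rw [e1]
      have : F v (y :: w) + H v (w ++ x) - (F v (y :: w) + H v w) = H v (w ++ x) - H v w := by ring
      rw [this]
      refine ih.trans ?_
      have : (min w.length v.length : ℕ) ≤ min (y :: w).length v.length := by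
        simp only [List.length_cons]; omega
      have h3 : ((min w.length v.length : ℕ) : ℝ) ≤ ((min (y :: w).length v.length : ℕ) : ℝ) := by
        exact_mod_cast this
      push_cast at h3 ⊢
      linarith
    · have e1 : |F v (y :: (w ++ x)) - F v (y :: w)| ≤ 1 := by
        rw [abs_le]
        have a1 := F_nonneg v (y :: (w ++ x))
        have a2 := F_le_one v (y :: (w ++ x))
        have a3 := F_nonneg v (y :: w)
        have a4 := F_le_one v (y :: w)
        constructor <;> linarith
      have e2 : F v (y :: (w ++ x)) + H v (w ++ x) - (F v (y :: w) + H v w) =
          (F v (y :: (w ++ x)) - F v (y :: w)) + (H v (w ++ x) - H v w) := by ring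
      rw [e2]
      refine (abs_add_le _ _).trans ?_
      have hl : (y :: w).length < v.length := not_le.1 hlen
      have h3 : min w.length v.length + 1 = min (y :: w).length v.length := by
        simp only [List.length_cons] at hl ⊢; omega
      have h4 : ((min w.length v.length : ℕ) : ℝ) + 1 = ((min (y :: w).length v.length : ℕ) : ℝ) := by
        exact_mod_cast h3
      linarith

theorem weight_nonneg (v : List Bool) : 0 ≤ weight v := by
  have h1 := ss_pos
  cases v with
  | nil => simp [weight]
  | cons x v =>
    rw [weight]
    apply mul_nonneg _ (chain_nonneg v x)
    cases x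
    · rw [init_false]; positivity
    · rw [init_true]; positivity

theorem weight_le_one (v : List Bool) : weight v ≤ 1 := by
  have h1 := ss_pos
  cases v with
  | nil => simp [weight]
  | cons x v =>
    rw [weight]
    apply mul_le_one₀ _ (chain_nonneg v x) (chain_le_one v x)
    cases x
    · rw [init_false, div_le_one (by positivity)]; linarith
    · rw [init_true, div_le_one (by positivity)]; linarith

theorem Mart_append_bound (v w x : List Bool) (hx : x.length ≤ 2) :
    |Mart v (w ++ x) - Mart v w| ≤ v.length + 4 := by
  unfold Mart
  have h1 := H_append_bound v w x
  have h2 : H v (w ++ x) - weight v * ((w ++ x).length : ℝ) - (H v w - weight v * (w.length : ℝ)) =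
      (H v (w ++ x) - H v w) - weight v * x.length := by
    simp only [List.length_append]
    push_cast
    ring
  rw [h2]
  refine (abs_sub _ _).trans ?_
  have h3 : |weight v * (x.length : ℝ)| ≤ x.length := by
    rw [abs_of_nonneg (mul_nonneg (weight_nonneg v) (Nat.cast_nonneg _))]
    exact mul_le_of_le_one_left (Nat.cast_nonneg _) (weight_le_one v)
  have h4 : ((min w.length v.length : ℕ) : ℝ) ≤ v.length := by
    exact_mod_cast min_le_right _ _
  have h5 : (x.length : ℝ) ≤ 2 := by exact_mod_cast hx
  linarith

/-- one-step second moment bound -/
theorem Mart_sq_step (v w : List Bool) :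
    (1 - ss) * (Mart v (w ++ [false])) ^ 2 + ss * (Mart v (w ++ [false, true])) ^ 2 ≤
      (Mart v w) ^ 2 + ((v.length : ℝ) + 4) ^ 2 := by
  have h0 := Mart_step v w
  have h1 := Mart_append_bound v w [false] (by simp)
  have h2 := Mart_append_bound v w [false, true] (by simp)
  have hs1 := ss_pos
  have hs2 := ss_lt_one
  set m := Mart v w
  set x := Mart v (w ++ [false])
  set y := Mart v (w ++ [false, true])
  set B : ℝ := (v.length : ℝ) + 4 with hB
  have hB0 : 0 ≤ B := by positivity
  have e1 : (x - m) ^ 2 ≤ B ^ 2 := sq_le_sq' (abs_le.1 h1).1 (abs_le.1 h1).2
  have e2 : (y - m) ^ 2 ≤ B ^ 2 := sq_le_sq' (abs_le.1 h2).1 (abs_le.1 h2).2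
  have e3 : (1 - ss) * x ^ 2 + ss * y ^ 2 = m ^ 2 + ((1 - ss) * (x - m) ^ 2 + ss * (y - m) ^ 2) +
      2 * m * ((1 - ss) * x + ss * y - m) := by ring
  rw [e3, h0]
  nlinarith

/-- comparison with the number of occurrences -/
theorem H_occ (v w : List Bool) :
    |H v w - (occ v w : ℝ)| ≤ 1 + min w.length v.length := by
  induction w with
  | nil =>
    unfold occ
    simp only [List.tails, H]
    cases v <;> simp
  | cons y w ih =>
    have e0 : occ v (y :: w) = (if v.isPrefixOf (y :: w) then 1 else 0) + occ v w := by
      unfold occ
      rw [List.tails_cons, List.countP_cons]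
      ring
    rw [H, e0]
    by_cases hlen : v.length ≤ (y :: w).length
    · rw [F_of_length_le v (y :: w) hlen]
      have e1 : ((if v.isPrefixOf (y :: w) = true then (1 : ℝ) else 0) + H v w -
          (((if v.isPrefixOf (y :: w) = true then 1 else 0) + occ v w : ℕ) : ℝ)) =
          H v w - (occ v w : ℝ) := by
        split_ifs <;> push_cast <;> ring
      rw [e1]
      refine ih.trans ?_
      have : (min w.length v.length : ℕ) ≤ min (y :: w).length v.length := by
        simp only [List.length_cons]; omega
      have h3 : ((min w.length v.length : ℕ) : ℝ) ≤ ((min (y :: w).length v.length : ℕ) : ℝ) := by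
        exact_mod_cast this
      push_cast at h3 ⊢
      linarith
    · have hl : (y :: w).length < v.length := not_le.1 hlen
      have e1 : v.isPrefixOf (y :: w) = false := by
        by_contra hcon
        have h5 : v.isPrefixOf (y :: w) = true := by
          cases h6 : v.isPrefixOf (y :: w)
          · exact absurd h6 hcon
          · rfl
        rw [List.isPrefixOf_iff_prefix] at h5
        exact absurd h5.length_le hlen
      rw [e1]
      have h3 : min w.length v.length + 1 = min (y :: w).length v.length := by
        simp only [List.length_cons] at hl ⊢; omega
      have h4 : ((min w.length v.length : ℕ) : ℝ) + 1 = ((min (y :: w).length v.length : ℕ) : ℝ) := by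
        exact_mod_cast h3
      have a3 := F_nonneg v (y :: w)
      have a4 := F_le_one v (y :: w)
      have e2 : F v (y :: w) + H v w - (((if false = true then 1 else 0) + occ v w : ℕ) : ℝ) =
          F v (y :: w) + (H v w - (occ v w : ℝ)) := by
        simp; ring
      rw [e2]
      refine (abs_add_le _ _).trans ?_
      rw [abs_of_nonneg a3]
      linarith

/-- The deviation of the number of occurrences. -/
noncomputable def dev (v w : List Bool) : ℝ := (occ v w : ℝ) - weight v * w.length

theorem dev_Mart (v w : List Bool) : |dev v w - Mart v w| ≤ v.length + 1 := by
  unfold dev Mart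
  have h1 := H_occ v w
  have h2 : (occ v w : ℝ) - weight v * w.length - (H v w - weight v * w.length) =
      -(H v w - (occ v w : ℝ)) := by ring
  rw [h2, abs_neg]
  refine h1.trans ?_
  have h4 : ((min w.length v.length : ℕ) : ℝ) ≤ v.length := by
    exact_mod_cast min_le_right _ _
  linarith

end Q78.Parry
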